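import Pool.Agent.H.MP_97d5d8_an.C

set_option autoImplicit false

namespace Pool.Agent.Results.MP_97d5d8_an.No

open MeasureTheory ProbabilityTheory Set Filter Topology Metric
open scoped RealInnerProductSpace

/-- The plane (`N = 2`). -/
abbrev E := EuclideanSpace ℝ (Fin 2)

/-- The heat semigroup `e^{tΔ}` of the plane: `ξ` is a standard Gaussian vector, so
`z + √(2t) ξ` has the heat kernel `(4πt)⁻¹ exp (-|· - z|² / 4t)` as density. -/
noncomputable def heat (t : ℝ) (φ : E → ℝ) (z : E) : ℝ :=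
  ∫ ξ, φ (z + √(2 * t) • ξ) ∂stdGaussian E

/-- `u` solves `∂ₜ u = Δ u + f(u)`, `u(0, ·) = 1_U`, `0 ≤ u ≤ 1`, in Duhamel (integral) form. -/
structure Sol (f : ℝ → ℝ) (U : Set E) (u : ℝ → E → ℝ) : Prop where
  meas : Measurable (Function.uncurry u)
  range : ∀ t, 0 ≤ t → ∀ z, u t z ∈ Icc (0 : ℝ) 1
  duhamel : ∀ t, 0 ≤ t → ∀ z, u t z =
    heat t (U.indicator 1) z + ∫ s in (0)..t, heat (t - s) (fun w => f (u s w)) z

/-- Condition (D). -/
def CondD (U : Set E) : Prop :=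
  ∃ δ > 0, hausdorffEDist U {x ∈ U | δ ≤ infDist x (frontier U)} < ⊤

/-- The opening function. -/
noncomputable def opening (U : Set E) (x : E) : EReal :=
  ⨆ ξ ∈ {ξ ∈ closure U | dist x ξ = infDist x U}, ⨆ y ∈ U \ {ξ},
    (⟪‖x - ξ‖⁻¹ • (x - ξ), ‖y - ξ‖⁻¹ • (y - ξ)⟫ : ℝ)

/-- The quantity in brackets in condition (B). -/
noncomputable def bracket (U : Set E) (R : ℝ) : EReal := ⨆ x ∈ {x | infDist x U = R}, opening U x

/-- Condition (B). -/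
def CondB (U : Set E) : Prop := ∃ L ≤ 0, Tendsto (bracket U) atTop (𝓝 L)

open Pool.Agent.H.MP_97d5d8_an (U mU So exists_So main BM)

lemma dsq (x y : E) : dist x y ^ 2 = (x 0 - y 0) ^ 2 + (x 1 - y 1) ^ 2 := by
  rw [EuclideanSpace.dist_sq_eq]; simp [Real.dist_eq]

lemma cD : CondD U := by
  have ne : (frontier U).Nonempty := nonempty_frontier_iff.2 ⟨⟨0, by simp [U]⟩, fun h => by
    have : (!₂[0, 1] : E) ∈ U := h ▸ mem_univ _
    simp [U] at this; linarith⟩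
  refine ⟨1, one_pos, (hausdorffEDist_le_of_mem_edist (r := ENNReal.ofReal 2) (fun x hx => ?_)
    fun x hx => ⟨x, hx.1, by simp⟩).trans_lt ENNReal.ofReal_lt_top⟩
  obtain ⟨σ, s, p⟩ : ∃ σ : ℝ, σ * σ = 1 ∧ 0 ≤ σ * x 0 := by
    rcases le_total 0 (x 0) with c | c
    exacts [⟨1, by simp, by simpa⟩, ⟨-1, by simp, by simpa⟩]
  have hx' : x 1 ≤ x 0 ^ 2 := hx
  refine ⟨x + !₂[σ, -1], ⟨by simp [U]; nlinarith, (le_infDist ne).2 fun w hw => ?_⟩, ?_⟩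
  · have e : w 1 = w 0 ^ 2 := frontier_le_subset_eq (by fun_prop) (by fun_prop) hw
    by_contra c
    have d := dsq (x + !₂[σ, -1]) w
    have d1 : dist (x + !₂[σ, -1]) w ^ 2 < 1 := by
      nlinarith [dist_nonneg (x := x + !₂[σ, -1]) (y := w)]
    rw [d] at d1
    simp at d1
    have a : w 1 < x 1 := by nlinarith
    have b : σ * x 0 < σ * w 0 := by nlinarith
    have : (σ * x 0) ^ 2 < (σ * w 0) ^ 2 := by nlinarith
    have q : ∀ y : ℝ, (σ * y) ^ 2 = y ^ 2 := fun y => by rw [mul_pow, sq σ, s, one_mul]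
    rw [q, q] at this
    linarith
  · rw [edist_dist]
    refine ENNReal.ofReal_le_ofReal (abs_le_of_sq_le_sq' ?_ (by norm_num)).2
    rw [dsq]; simp; nlinarith

lemma inn (x y : E) : ⟪x, y⟫ = x 0 * y 0 + x 1 * y 1 := by
  simp [PiLp.inner_apply, mul_comm]

lemma nB {R : ℝ} (hR : 1 ≤ R) : ((1 / 2 : ℝ) : EReal) ≤ bracket U R := by
  obtain ⟨a, a0, ha⟩ : ∃ a : ℝ, 0 < a ∧ a ^ 2 = R ^ 2 - 1 / 4 :=
    ⟨√(R ^ 2 - 1 / 4), Real.sqrt_pos.2 (by nlinarith), Real.sq_sqrt (by nlinarith)⟩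
  obtain ⟨x, x0, x1⟩ : ∃ x : E, x 0 = 0 ∧ x 1 = R ^ 2 + 1 / 4 := ⟨!₂[0, R ^ 2 + 1 / 4], by simp⟩
  obtain ⟨p, p0, p1⟩ : ∃ x : E, x 0 = a ∧ x 1 = a ^ 2 := ⟨!₂[a, a ^ 2], by simp⟩
  obtain ⟨q, q0, q1⟩ : ∃ x : E, x 0 = -a ∧ x 1 = a ^ 2 := ⟨!₂[-a, a ^ 2], by simp⟩
  have mp : p ∈ U := by simp [U, p0, p1]
  have mq : q ∈ U := by simp [U, q0, q1]
  have R0 : 0 < R := by linarith
  have d : dist x p = R := by
    rw [← sq_eq_sq₀ dist_nonneg R0.le, dsq, x0, x1, p0, p1]; nlinarith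
  have i : infDist x U = R :=
    le_antisymm (d ▸ infDist_le_dist_of_mem mp) ((le_infDist ⟨_, mp⟩).2 fun w hw => by
      refine (abs_le_of_sq_le_sq' ?_ dist_nonneg).2
      have : w 1 ≤ w 0 ^ 2 := hw
      rw [dsq, x0, x1]; nlinarith [sq_nonneg (R ^ 2 - w 1 - 1 / 4)])
  have ne : q ≠ p := fun h => by rw [h, p0] at q0; linarith
  have d2 : dist q p = 2 * a := by
    rw [← sq_eq_sq₀ dist_nonneg (by linarith), dsq, p0, p1, q0, q1]; ring
  have k : 1 / 2 ≤ ⟪‖x - p‖⁻¹ • (x - p), ‖q - p‖⁻¹ • (q - p)⟫ := by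
    rw [← dist_eq_norm, ← dist_eq_norm, d, d2, real_inner_smul_left, real_inner_smul_right, inn]
    simp only [PiLp.sub_apply, x0, x1, p0, p1, q0, q1]
    have : R ≤ 2 * a := (abs_le_of_sq_le_sq' (by nlinarith) (by linarith)).2
    field_simp
    nlinarith
  have k1 : ((1 / 2 : ℝ) : EReal) ≤ opening U x :=
    le_iSup₂_of_le p ⟨subset_closure mp, d.trans i.symm⟩
      (le_iSup₂_of_le q ⟨mq, ne⟩ (EReal.coe_le_coe_iff.2 k))
  exact le_iSup₂_of_le (f := fun x (_ : x ∈ {x | infDist x U = R}) => opening U x) x i k1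

theorem result : ∃ f : ℝ → ℝ, ContDiff ℝ 1 f ∧ f 0 = 0 ∧ f 1 = 0 ∧ 0 < deriv f 0 ∧
    (∀ s ∈ Ioo (0 : ℝ) 1, 0 < f s ∧ f s ≤ deriv f 0 * s) ∧
    ∃ U : Set E, MeasurableSet U ∧ IsConnected U ∧ CondD U ∧
      ¬ CondB U ∧ (∀ R ≥ 1, ((1 / 2 : ℝ) : EReal) ≤ bracket U R) ∧
      (∃ u, Sol f U u) ∧ ∀ u, Sol f U u → ∀ (t : ℕ → ℝ) (x : ℕ → E), Tendsto t atTop atTop →
        ∃ e : E, ‖e‖ = 1 ∧ ∃ Ψ : ℝ → ℝ, ∀ (z : E) (c : ℝ),
          Tendsto (fun n => u (t n) (x n + z)) atTop (𝓝 c) → c = Ψ ⟪z, e⟫ := by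
  have d : deriv (fun s : ℝ => s * (1 - s)) 0 = 1 := by
    exact ((hasDerivAt_id' (0 : ℝ)).fun_mul ((hasDerivAt_id' (0 : ℝ)).const_sub 1)).deriv.trans
      (by simp)
  refine ⟨fun s => s * (1 - s), by fun_prop, by simp, by simp, by simp [d], fun s hs => ?_,
    U, mU, ?_, cD, ?_, fun R => nB, ?_, fun u h t x ht => ⟨!₂[1, 0], ?_,
      fun a => limsup (fun n => u (t n) (x n + !₂[a, 0])) atTop, fun z c hc => ?_⟩⟩
  · rw [d]; constructor <;> nlinarith [hs.1, hs.2]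
  · have : U = (fun p : ℝ × ℝ => (!₂[p.1, p.1 ^ 2 - p.2] : E)) '' univ ×ˢ Ici 0 := by
      ext z
      refine ⟨fun h => ⟨(z 0, z 0 ^ 2 - z 1), by simpa [U] using h, ?_⟩, ?_⟩
      · ext i; fin_cases i <;> simp
      · rintro ⟨p, hp, rfl⟩; simpa [U] using hp
    rw [this]
    exact (isConnected_univ.prod isConnected_Ici).image _ (Continuous.continuousOn (by fun_prop))
  · rintro ⟨L, L0, hL⟩
    have := (ge_of_tendsto hL ((eventually_ge_atTop 1).mono fun R => nB)).trans L0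
    norm_cast at this
    linarith
  · obtain ⟨u, h⟩ := exists_So mU
    exact ⟨u, h.d.w'.m, h.r, h.d.e⟩
  · simp [EuclideanSpace.norm_eq]
  have hs : So (U.indicator 1) u := .mk' (.ind mU) h.meas h.range h.duhamel
  have e : ⟪z, (!₂[1, 0] : E)⟫ = z 0 := by rw [inn]; simp
  rw [e]
  refine (Tendsto.limsup_eq ?_).symm
  refine hc.congr_dist (Metric.tendsto_nhds.2 fun η hη => ?_)
  filter_upwards [ht.eventually (main hs (abs_nonneg (z 1)) (half_pos hη))] with n hn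
  rw [Real.dist_0_eq_abs, abs_of_nonneg dist_nonneg, Real.dist_eq]
  refine lt_of_le_of_lt ?_ (half_lt_self hη)
  rcases le_total 0 (z 1) with s | s
  · rw [abs_sub_comm]
    rw [show x n + z = x n + !₂[z 0, 0] + !₂[0, |z 1|] by
      ext i; fin_cases i <;> simp [abs_of_nonneg s]]
    exact hn _
  · rw [show x n + !₂[z 0, 0] = x n + z + !₂[0, |z 1|] by
      ext i; fin_cases i <;> simp [abs_of_nonpos s]]
    exact hn _

end Pool.Agent.Results.MP_97d5d8_an.No
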